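import Pool.Agent.MNU.StmtsU
import Pool.Agent.MNT.Fin

set_option autoImplicit false

/-!
# Squad MNU, row CFM: arbitrary models
-/

namespace Pool.Agent.MNU.H31

open Polynomial NumberField
open Pool.Agent.MNT

/-! ## Changes of coordinates -/

section mob

variable {K : Type} [Field K]

theorem mob_C_mul (α β γ δ : K) (n : ℕ) (a : K) (p : K[X]) :
    mob α β γ δ n (C a * p) = C a * mob α β γ δ n p := by
  unfold mob
  rw [Finset.mul_sum]
  refine Finset.sum_congr rfl fun i _ => ?_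
  rw [coeff_C_mul, C_mul]
  ring

theorem mob_eval {α β γ δ : K} {n : ℕ} {p : K[X]} (hp : p.natDegree ≤ n) {t : K}
    (ht : γ * t + δ ≠ 0) : (mob α β γ δ n p).eval t =
      (γ * t + δ) ^ n * p.eval ((α * t + β) / (γ * t + δ)) := by
  unfold mob
  rw [eval_finset_sum, eval_eq_sum_range' (Nat.lt_succ_of_le hp), Finset.mul_sum]
  refine Finset.sum_congr rfl fun i hi => ?_
  have hi1 : i ≤ n := Nat.lt_succ_iff.1 (Finset.mem_range.1 hi)
  simp only [eval_mul, eval_pow, eval_add, eval_C, eval_X]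
  have h1 : (γ * t + δ) ^ n = (γ * t + δ) ^ i * (γ * t + δ) ^ (n - i) := by
    rw [← pow_add, Nat.add_sub_cancel' hi1]
  have h2 : (γ * t + δ) ^ i ≠ 0 := pow_ne_zero _ ht
  rw [h1, div_pow]
  generalize (γ * t + δ) ^ i = u at h2
  generalize (γ * t + δ) ^ (n - i) = v
  generalize (α * t + β) ^ i = w
  field_simp

theorem mob_map {L : Type} [Field L] (φ : K →+* L) (α β γ δ : K) (n : ℕ) (p : K[X]) :
    (mob α β γ δ n p).map φ = mob (φ α) (φ β) (φ γ) (φ δ) n (p.map φ) := by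
  unfold mob
  rw [Polynomial.map_sum]
  refine Finset.sum_congr rfl fun i _ => ?_
  simp only [Polynomial.map_mul, Polynomial.map_pow, Polynomial.map_add, Polynomial.map_C,
    Polynomial.map_X, coeff_map]

theorem lin_deg (a b : K) (j : ℕ) : ((C a * X + C b : K[X]) ^ j).natDegree ≤ j := by
  have h1 := natDegree_pow_le_of_le j (natDegree_linear_le (a := a) (b := b))
  rwa [mul_one] at h1

theorem lin_coeff (a b : K) (j : ℕ) : ((C a * X + C b : K[X]) ^ j).coeff j = a ^ j := by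
  have h1 := coeff_pow_of_natDegree_le (m := j) (natDegree_linear_le (a := a) (b := b))
  rw [mul_one] at h1
  rw [h1]
  simp

theorem mob_coeff (α β γ δ : K) (n : ℕ) (p : K[X]) :
    (mob α β γ δ n p).coeff n =
      ∑ i ∈ Finset.range (n + 1), p.coeff i * α ^ i * γ ^ (n - i) := by
  unfold mob
  rw [finset_sum_coeff]
  refine Finset.sum_congr rfl fun i hi => ?_
  have hi1 : i ≤ n := Nat.lt_succ_iff.1 (Finset.mem_range.1 hi)
  have h4 := coeff_mul_add_eq_of_natDegree_le (lin_deg α β i) (lin_deg γ δ (n - i))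
  rw [Nat.add_sub_cancel' hi1, lin_coeff, lin_coeff] at h4
  rw [mul_assoc, coeff_C_mul, h4, mul_assoc]

theorem mob_zero (α β γ δ : K) (n : ℕ) : mob α β γ δ n (0 : K[X]) = 0 := by
  unfold mob
  simp

end mob

theorem hsol_map {g : ℕ} {K L : Type} [Field K] [Field L] (φ : K →+* L) {f : K[X]} {ξ : K}
    {N : ℕ} {U W : K[X]} {c : K} (h : HSol g f ξ N U W c) :
    HSol g (f.map φ) (φ ξ) N (U.map φ) (W.map φ) (φ c) where
  pos := h.pos
  c_ne := (_root_.map_ne_zero φ).2 h.c_ne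
  eq := by
    have h1 := congrArg (Polynomial.map φ) h.eq
    simp only [Polynomial.map_sub, Polynomial.map_mul, Polynomial.map_pow, Polynomial.map_C,
      Polynomial.map_X] at h1
    exact h1
  degU := by
    rw [natDegree_map]
    exact h.degU
  degW := by
    rcases h.degW with h1 | h1
    · left
      rw [h1, Polynomial.map_zero]
    · right
      rw [natDegree_map]
      exact h1
  ev := by
    rw [Polynomial.eval_map_apply]
    exact (_root_.map_ne_zero φ).2 h.ev

/-- from the model to the curve -/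
theorem pull (mobS : MobStmt) (moi : MoiStmt) {g : ℕ} {E : Type} [Field E] {F p : E[X]}
    {α β γ δ x e r c : E} {N : ℕ} {U W : E[X]} (hp : p.natDegree ≤ 2 * g + 2)
    (hF : F = C e * mob α β γ δ (2 * g + 2) p) (hFd : F.natDegree ≤ 2 * g + 2)
    (hdet : α * δ - β * γ ≠ 0) (hx : γ * x + δ ≠ 0) (he : e ≠ 0) (hr : r ^ 2 = e)
    (h : HSol g F x N U W c) :
    ∃ (U' W' : E[X]) (c' : E), HSol g p ((α * x + β) / (γ * x + δ)) N U' W' c' := by
  set D : E := α * δ - β * γ with hD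
  have hD0 : D ≠ 0 := hdet
  have hr0 : r ≠ 0 := by
    rintro rfl
    rw [zero_pow two_ne_zero] at hr
    exact he hr.symm
  have hu : (α * x + β) / (γ * x + δ) * (γ * x + δ) = α * x + β := div_mul_cancel₀ _ hx
  have e1 : δ * ((α * x + β) / (γ * x + δ)) + -β = D * x / (γ * x + δ) := by
    rw [eq_div_iff hx, hD]
    linear_combination δ * hu
  have e2 : -γ * ((α * x + β) / (γ * x + δ)) + α = D / (γ * x + δ) := by
    rw [eq_div_iff hx, hD]
    linear_combination -γ * hu
  have e3 : D / (γ * x + δ) ≠ 0 := div_ne_zero hD0 hx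
  have h1 : HSol g F ((δ * ((α * x + β) / (γ * x + δ)) + -β) /
      (-γ * ((α * x + β) / (γ * x + δ)) + α)) N U W c := by
    have e4 : (δ * ((α * x + β) / (γ * x + δ)) + -β) /
      (-γ * ((α * x + β) / (γ * x + δ)) + α) = x := by
      rw [e1, e2, div_div_div_cancel_right₀ hx, mul_div_cancel_left₀ _ hD0]
    rw [e4]
    exact h
  have h2 := mobS g E F N U W c δ (-β) (-γ) α ((α * x + β) / (γ * x + δ))
    (e * D ^ (2 * g + 2))⁻¹ (r * D ^ (g + 1)) hFd
    (by
      have : δ * α - -β * -γ = D := by rw [hD]; ring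
      rw [this]
      exact hD0)
    (by rw [e2]; exact e3) (inv_ne_zero (mul_ne_zero he (pow_ne_zero _ hD0)))
    (by
      have e5 : (r * D ^ (g + 1)) ^ 2 = e * D ^ (2 * g + 2) := by
        rw [mul_pow, hr, ← pow_mul]
        congr 2
        ring
      rw [e5]
      exact mul_inv_cancel₀ (mul_ne_zero he (pow_ne_zero _ hD0))) h1
  have e6 : C (e * D ^ (2 * g + 2))⁻¹ * mob δ (-β) (-γ) α (2 * g + 2) F = p := by
    rw [hF, mob_C_mul, moi E α β γ δ (2 * g + 2) p hp, ← mul_assoc, ← mul_assoc, ← C_mul, ← C_mul,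
      ← hD, mul_assoc, inv_mul_cancel₀ (mul_ne_zero he (pow_ne_zero _ hD0)), C_1, one_mul]
  rw [e6] at h2
  exact h2

/-- from the curve to the model -/
theorem push (mobS : MobStmt) {g : ℕ} {E : Type} [Field E] {p : E[X]}
    {α β γ δ ξ e r c : E} {N : ℕ} {U W : E[X]} (hp : p.natDegree ≤ 2 * g + 2)
    (hdet : α * δ - β * γ ≠ 0) (hx : α - γ * ξ ≠ 0) (he : e ≠ 0) (hr : r ^ 2 = e)
    (h : HSol g p ξ N U W c) :
    γ * ((δ * ξ - β) / (α - γ * ξ)) + δ ≠ 0 ∧
    (α * ((δ * ξ - β) / (α - γ * ξ)) + β) / (γ * ((δ * ξ - β) / (α - γ * ξ)) + δ) = ξ ∧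
    ∃ (U' W' : E[X]) (c' : E), HSol g (C e * mob α β γ δ (2 * g + 2) p)
      ((δ * ξ - β) / (α - γ * ξ)) N U' W' c' := by
  have hr0 : r ≠ 0 := by
    rintro rfl
    rw [zero_pow two_ne_zero] at hr
    exact he hr.symm
  have hv : (δ * ξ - β) / (α - γ * ξ) * (α - γ * ξ) = δ * ξ - β := div_mul_cancel₀ _ hx
  have e1 : γ * ((δ * ξ - β) / (α - γ * ξ)) + δ = (α * δ - β * γ) / (α - γ * ξ) := by
    rw [eq_div_iff hx]
    linear_combination γ * hv
  have e2 : α * ((δ * ξ - β) / (α - γ * ξ)) + β = (α * δ - β * γ) * ξ / (α - γ * ξ) := by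
    rw [eq_div_iff hx]
    linear_combination α * hv
  have e3 : (α * δ - β * γ) / (α - γ * ξ) ≠ 0 := div_ne_zero hdet hx
  have e4 : (α * ((δ * ξ - β) / (α - γ * ξ)) + β) / (γ * ((δ * ξ - β) / (α - γ * ξ)) + δ) =
      ξ := by
    rw [e1, e2, div_div_div_cancel_right₀ hx, mul_div_cancel_left₀ _ hdet]
  refine ⟨by rw [e1]; exact e3, e4, ?_⟩
  refine mobS g E p N U W c α β γ δ ((δ * ξ - β) / (α - γ * ξ)) e r⁻¹ hp hdet
    (by rw [e1]; exact e3) he ?_ (by rw [e4]; exact h)
  rw [← hr, inv_pow, inv_mul_cancel₀ (pow_ne_zero _ hr0)]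

/-! ## Configurations -/

theorem QR_eq (g : ℕ) : QR g = Finset.univ.map (Function.Embedding.inl (α := Fin (2 * g + 1))
    (β := Fin (2 * g + 9))) := by
  ext p
  rcases p with p | p
  · simp [QR]
  · simp [QR]

theorem inl_mem (g : ℕ) (j : Fin (2 * g + 1)) : (Sum.inl j : QI g) ∈ QR g := by simp [QR]

theorem FF_elim {K : Type} [Field K] (g : ℕ) (e : K) (θ : Fin (2 * g + 1) → K)
    (x : Fin (2 * g + 9) → K) :
    FF e (QR g) (Sum.elim θ x) = C e * ∏ j, (X - C (θ j)) := by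
  rw [FF, QR_eq, Finset.prod_map]
  rfl

/-- the splitting of a squarefree polynomial -/
theorem roots_ex {E : Type} [Field E] {f : E[X]} (hs : f.Splits) (hsq : Squarefree f) {n : ℕ}
    (hn : f.natDegree = n) : ∃ (e : E) (θ : Fin n → E), e ≠ 0 ∧ f = C e * ∏ j, (X - C (θ j)) ∧
      Function.Injective θ ∧ ∀ j, f.eval (θ j) = 0 := by
  have hf0 : f ≠ 0 := hsq.ne_zero
  have hcard : f.roots.card = n := by
    rw [← hs.natDegree_eq_card_roots, hn]
  obtain ⟨L, hL⟩ := Quot.exists_rep f.roots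
  have hLc : L.length = n := by
    rw [← hcard, ← hL]
    rfl
  have hprod : f = C f.leadingCoeff * ∏ j : Fin n, (X - C (L.get (Fin.cast hLc.symm j))) := by
    conv_lhs => rw [hs.eq_prod_roots]
    congr 1
    rw [← hL]
    have h1 : (Multiset.map (fun a => X - C a) (Quot.mk _ L : Multiset E)).prod =
        (L.map fun a => X - C a).prod := by
      show (Multiset.map (fun a => X - C a) (L : Multiset E)).prod = _
      rw [Multiset.map_coe, Multiset.prod_coe]
    rw [h1]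
    have h2 : (L.map fun a => (X - C a : E[X])).prod =
        ∏ j : Fin L.length, (X - C (L.get j)) := by
      rw [← List.prod_ofFn]
      congr 1
      apply List.ext_get
      · simp
      · intro n h1 h2
        simp
    rw [h2]
    exact (Fin.prod_congr' (fun j => (X - C (L.get j) : E[X])) hLc.symm).symm
  obtain ⟨θ, hθ⟩ : ∃ θ : Fin n → E, θ = fun j => L.get (Fin.cast hLc.symm j) := ⟨_, rfl⟩
  obtain ⟨e, he⟩ : ∃ e : E, e = f.leadingCoeff := ⟨_, rfl⟩
  have he0 : e ≠ 0 := by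
    rw [he]
    exact leadingCoeff_ne_zero.2 hf0
  replace hprod : f = C e * ∏ j : Fin n, (X - C (θ j)) := by
    rw [hθ, he]
    exact hprod
  refine ⟨e, θ, he0, hprod, ?_, ?_⟩
  · intro j k hjk
    by_contra hne
    have h1 : (X - C (θ j)) * (X - C (θ j)) ∣ f := by
      rw [hprod]
      apply Dvd.dvd.mul_left
      rw [← Finset.mul_prod_erase _ _ (Finset.mem_univ j)]
      apply mul_dvd_mul_left
      have h2 : k ∈ Finset.univ.erase j := Finset.mem_erase.2 ⟨fun h => hne h.symm,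
        Finset.mem_univ k⟩
      rw [← Finset.mul_prod_erase _ _ h2, ← hjk]
      exact dvd_mul_right _ _
    exact not_isUnit_X_sub_C _ (hsq _ h1)
  · intro j
    rw [hprod, eval_mul, eval_prod, Finset.prod_eq_zero (Finset.mem_univ j) (by simp), mul_zero]

/-! ## The main theorem -/

theorem cfm (hsi : HsiStmt) (mobS : MobStmt) (moi : MoiStmt) (cne : CneStmt)
    (pel : MNT.PelStmt) (bcj : BcjStmt) (tjs : TjsStmt) : CfmStmt := by
  intro g hg d
  obtain ⟨D, hD⟩ := cne (2 * g + 9) d (2 * g + 3) (by omega)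
  obtain ⟨B, hB⟩ := tjs g hg D
  refine ⟨B, ?_⟩
  intro K M _ _ _ _ _ hM f Y α β γ δ hmod x y hxy hx hmin htor c hc
  obtain ⟨e, he, hY⟩ := hmod.eq
  have hdet := hmod.det
  obtain ⟨ξ, hξ⟩ : ∃ ξ : M, ξ = (α * x + β) / (γ * x + δ) := ⟨_, rfl⟩
  rw [← hξ] at hmin
  have hY0 : Y.f ≠ 0 := Y.sqfree.ne_zero
  have hFd : (f.map (algebraMap K M)).natDegree ≤ 2 * g + 2 := by
    rw [natDegree_map]
    exact hmod.deg_le
  have hf0 : f ≠ 0 := by
    rintro rfl
    rw [Polynomial.map_zero, mob_zero, mul_zero] at hY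
    exact hY0 hY
  have hfξ : (f.map (algebraMap K M)).eval ξ ≠ 0 := by
    intro h0
    have h1 : Polynomial.aeval ξ f = 0 := by
      rw [← Polynomial.eval_map_algebraMap]
      exact h0
    have h2 := Polynomial.natDegree_le_of_dvd (minpoly.dvd K ξ h1) hf0
    have h3 := hmod.deg_le
    omega
  have hev : Y.f.eval x = e * ((γ * x + δ) ^ (2 * g + 2) * (f.map (algebraMap K M)).eval ξ) := by
    rw [hY, eval_mul, eval_C, mob_eval hFd hx, hξ]
  have hy : y ≠ 0 := by
    rintro rfl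
    rw [hev, zero_pow two_ne_zero] at hxy
    exact mul_ne_zero he (mul_ne_zero (pow_ne_zero _ hx) hfξ) hxy.symm
  -- the solution over `M`
  obtain ⟨N, hN⟩ := (tor_iff Y x y).1 htor
  obtain ⟨U, W, c₀, hsol⟩ := pel M Y.f x y N two_ne_zero Y.odd hxy hy hN
  have hsol1 : HSol g Y.f x N U W c₀ := (hsi g M Y.f x N U W c₀ hmod.deg_Y).1 hsol
  -- the field `E`
  have hq0 : (X ^ 2 - C e : M[X]) ≠ 0 := (monic_X_pow_sub_C e two_ne_zero).ne_zero
  have hh0 : Y.f * (X ^ 2 - C e) ≠ 0 := mul_ne_zero hY0 hq0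
  have hhd : (Y.f * (X ^ 2 - C e)).natDegree ≤ 2 * g + 3 := by
    rw [natDegree_mul hY0 hq0, hmod.deg_Y, natDegree_X_pow_sub_C]
  obtain ⟨E, _, _, _, _, _, σ, hE, hspl, hinj, i₀, hi₀⟩ := hD K M hM ξ _ hh0 hhd hmin
  have hsp1 : ∀ i, (Y.f.map (σ i).toRingHom).Splits := by
    intro i
    refine (hspl i).of_dvd ?_ ?_
    · exact (Polynomial.map_ne_zero_iff (σ i).toRingHom.injective).2 hh0
    · rw [Polynomial.map_mul]
      exact dvd_mul_right _ _
  have hsq : ∀ i, ∃ r : E, r ^ 2 = σ i e := by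
    intro i
    have h1 : ((X ^ 2 - C e : M[X]).map (σ i).toRingHom).Splits := by
      refine (hspl i).of_dvd ?_ ?_
      · exact (Polynomial.map_ne_zero_iff (σ i).toRingHom.injective).2 hh0
      · rw [Polynomial.map_mul]
        exact dvd_mul_left _ _
    have h2 : ((X ^ 2 - C e : M[X]).map (σ i).toRingHom).degree ≠ 0 := by
      rw [degree_map, degree_X_pow_sub_C two_pos]
      decide
    obtain ⟨r, hr⟩ := h1.exists_eval_eq_zero h2
    refine ⟨r, ?_⟩
    simp only [Polynomial.map_sub, Polynomial.map_pow, Polynomial.map_X, Polynomial.map_C,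
      eval_sub, eval_pow, eval_X, eval_C] at hr
    exact sub_eq_zero.1 hr
  have hfE : ∀ i, (f.map (algebraMap K M)).map (σ i).toRingHom = f.map (algebraMap K E) := by
    intro i
    rw [Polynomial.map_map]
    congr 1
    ext a
    exact (σ i).commutes a
  have hιE : (f.map (algebraMap K M)).map (algebraMap M E) = f.map (algebraMap K E) := by
    rw [Polynomial.map_map, ← IsScalarTower.algebraMap_eq]
  have hfEd : (f.map (algebraMap K E)).natDegree ≤ 2 * g + 2 := by
    rw [natDegree_map]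
    exact hmod.deg_le
  have hfξE : ∀ i, (f.map (algebraMap K E)).eval (σ i ξ) ≠ 0 := by
    intro i
    rw [← hfE i]
    have h1 := Polynomial.eval_map_apply (p := f.map (algebraMap K M)) (σ i).toRingHom ξ
    have h2 : (σ i).toRingHom ξ = σ i ξ := rfl
    rw [h2] at h1
    rw [h1]
    exact (_root_.map_ne_zero _).2 hfξ
  -- the solutions for `f`
  have hsol2 : ∀ i, ∃ (U' W' : E[X]) (c' : E),
      HSol g (f.map (algebraMap K E)) (σ i ξ) N U' W' c' := by
    intro i
    obtain ⟨r, hr⟩ := hsq i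
    have h1 := hsol_map (σ i).toRingHom hsol1
    have h2 : Y.f.map (σ i).toRingHom = C (σ i e) * mob (σ i α) (σ i β) (σ i γ) (σ i δ)
        (2 * g + 2) (f.map (algebraMap K E)) := by
      conv_lhs => rw [hY]
      rw [Polynomial.map_mul, Polynomial.map_C, mob_map, hfE i]
      rfl
    have h3 := pull mobS moi (x := σ i x) (r := r) hfEd h2
      (by rw [natDegree_map, hmod.deg_Y]; omega)
      (by
        rw [← map_mul, ← map_mul, ← map_sub]
        exact (_root_.map_ne_zero _).2 hdet)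
      (by
        rw [← map_mul, ← map_add]
        exact (_root_.map_ne_zero _).2 hx)
      ((_root_.map_ne_zero _).2 he) hr h1
    have h4 : (σ i α * σ i x + σ i β) / (σ i γ * σ i x + σ i δ) = σ i ξ := by
      rw [hξ, map_div₀, map_add, map_add, map_mul, map_mul]
    rw [h4] at h3
    exact h3
  -- the model over `E`
  obtain ⟨ι, hι⟩ : ∃ ι : M →+* E, ι = algebraMap M E := ⟨_, rfl⟩
  rw [← hι] at hιE hi₀
  have hYι : Y.f.map ι = C (ι e) * mob (ι α) (ι β) (ι γ) (ι δ) (2 * g + 2)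
      (f.map (algebraMap K E)) := by
    conv_lhs => rw [hY]
    rw [Polynomial.map_mul, Polynomial.map_C, mob_map, hιE]
  have hιdet : ι α * ι δ - ι β * ι γ ≠ 0 := by
    rw [← map_mul, ← map_mul, ← map_sub]
    exact (_root_.map_ne_zero _).2 hdet
  have hιe : ι e ≠ 0 := (_root_.map_ne_zero _).2 he
  have hne : ∀ i, ι α - ι γ * σ i ξ ≠ 0 := by
    intro i h0
    have h1 : ι α = ι γ * σ i ξ := sub_eq_zero.1 h0
    have hγ : ι γ ≠ 0 := by
      intro h2
      rw [h2, zero_mul] at h1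
      rw [h1, h2, zero_mul, mul_zero, sub_zero] at hιdet
      exact hιdet rfl
    have h2 : (Y.f.map ι).coeff (2 * g + 2) = 0 := by
      apply coeff_eq_zero_of_natDegree_lt
      rw [natDegree_map, hmod.deg_Y]
      omega
    rw [hYι, coeff_C_mul, mob_coeff] at h2
    have h3 := (mul_eq_zero.1 h2).resolve_left hιe
    have h4 : ∑ j ∈ Finset.range (2 * g + 2 + 1), (f.map (algebraMap K E)).coeff j * ι α ^ j *
        ι γ ^ (2 * g + 2 - j) = ι γ ^ (2 * g + 2) * (f.map (algebraMap K E)).eval (σ i ξ) := by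
      rw [eval_eq_sum_range' (Nat.lt_succ_of_le hfEd), Finset.mul_sum]
      refine Finset.sum_congr rfl fun j hj => ?_
      have hj1 : j ≤ 2 * g + 2 := Nat.lt_succ_iff.1 (Finset.mem_range.1 hj)
      have h5 : ι γ ^ (2 * g + 2) = ι γ ^ j * ι γ ^ (2 * g + 2 - j) := by
        rw [← pow_add, Nat.add_sub_cancel' hj1]
      rw [h1, h5, mul_pow]
      ring
    rw [h4] at h3
    exact mul_ne_zero (pow_ne_zero _ hγ) (hfξE i) h3
  obtain ⟨r₀, hr₀⟩ := hsq i₀
  rw [hi₀] at hr₀
  obtain ⟨xx, hxx⟩ : ∃ xx : Fin (2 * g + 9) → E, xx = fun i =>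
      (ι δ * σ i ξ - ι β) / (ι α - ι γ * σ i ξ) := ⟨_, rfl⟩
  have hpush : ∀ i, ι γ * xx i + ι δ ≠ 0 ∧ (ι α * xx i + ι β) / (ι γ * xx i + ι δ) = σ i ξ ∧
      ∃ (U' W' : E[X]) (c' : E), HSol g (Y.f.map ι) (xx i) N U' W' c' := by
    intro i
    obtain ⟨U', W', c', h1⟩ := hsol2 i
    have h2 := push mobS (r := r₀) hfEd hιdet (hne i) hιe hr₀ h1
    rw [← hYι] at h2
    rw [hxx]
    exact h2
  have hxinj : Function.Injective xx := by
    intro i j hij
    apply hinj
    show σ i ξ = σ j ξ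
    rw [← (hpush i).2.1, ← (hpush j).2.1, hij]
  have hxev : ∀ i, (Y.f.map ι).eval (xx i) ≠ 0 := by
    intro i
    rw [hYι, eval_mul, eval_C, mob_eval hfEd (hpush i).1, (hpush i).2.1]
    exact mul_ne_zero hιe (mul_ne_zero (pow_ne_zero _ (hpush i).1) (hfξE i))
  -- the roots
  have hιeq : (σ i₀).toRingHom = ι := RingHom.ext fun a => hi₀ a
  have hsplit : (Y.f.map ι).Splits := by
    rw [← hιeq]
    exact hsp1 i₀
  have hsqf : Squarefree (Y.f.map ι) :=
    (PerfectField.separable_iff_squarefree.2 Y.sqfree).map.squarefree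
  have hdeg : (Y.f.map ι).natDegree = 2 * g + 1 := by rw [natDegree_map, hmod.deg_Y]
  obtain ⟨e', θ, he', hprod, hθ, hθ0⟩ := roots_ex hsplit hsqf hdeg
  have hcfg : Cfg g (Sum.elim θ xx) e' := by
    refine ⟨?_, he', ?_⟩
    · rw [Sum.elim_injective]
      refine ⟨hθ, hxinj, ?_⟩
      intro j i h
      exact hxev i (by rw [← h]; exact hθ0 j)
    · rintro (j | i) hp
      · exact absurd (inl_mem g j) hp
      · obtain ⟨-, -, U', W', c', h1⟩ := hpush i
        refine ⟨N, U', W', c', ?_⟩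
        rw [FF_elim, ← hprod]
        exact (hsi g E _ _ _ _ _ _ hdeg).2 h1
  let C' : UBT.OddCurve E := ⟨Y.f.map ι, by rw [hdeg]; exact ⟨g, rfl⟩, hsqf⟩
  obtain ⟨c', hc'⟩ := bcj M E ι Y C' rfl c
  rw [← hc']
  refine hB E hE _ e' hcfg C' ?_ c' ?_
  · rw [FF_elim, ← hprod]
  · rw [← orderOf_pos_iff, hc', orderOf_pos_iff]
    exact hc

end Pool.Agent.MNU.H31
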