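import Pool.Agent.Helper31_MNU.CFM

set_option autoImplicit false

/-!
# Squad MNU: the configuration of a point of large degree
-/

namespace Pool.Agent.MNU.H31

open Polynomial NumberField
open Pool.Agent.MNT

/-- the configuration, with a bound for the degree of the field -/
theorem cfg_of_degree_bd (hsi : HsiStmt) (mobS : MobStmt) (moi : MoiStmt) (cne : CneStmt)
    (pel : MNT.PelStmt) (g d : ℕ) : ∃ D : ℕ,
    ∀ (K M : Type) [Field K] [NumberField K] [Field M] [NumberField M] [Algebra K M],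
    Module.finrank ℚ M ≤ d → ∀ (f : K[X]) (Y : UBT.OddCurve M) (α β γ δ : M),
    IsOddModel g f Y α β γ δ → ∀ x y : M, y ^ 2 = Y.f.eval x → γ * x + δ ≠ 0 →
    2 * g + 9 ≤ (minpoly K ((α * x + β) / (γ * x + δ))).natDegree → IsOfFinOrder (cls Y x y) →
    ∃ (E : Type) (_ : Field E) (_ : NumberField E) (_ : Algebra M E) (e : E)
      (θ : Fin (2 * g + 1) → E) (x' : Fin (2 * g + 9) → E), Module.finrank ℚ E ≤ D ∧
      Y.f.map (algebraMap M E) = C e * ∏ j, (X - C (θ j)) ∧ Cfg g (Sum.elim θ x') e := by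
  obtain ⟨D, hD⟩ := cne (2 * g + 9) d (2 * g + 3) (by omega)
  refine ⟨D, ?_⟩
  intro K M _ _ _ _ _ hM f Y α β γ δ hmod x y hxy hx hmin htor
  obtain ⟨e, he, hY⟩ := hmod.eq
  have hdet := hmod.det
  obtain ⟨ξ, hξ⟩ : ∃ ξ : M, ξ = (α * x + β) / (γ * x + δ) := ⟨_, rfl⟩
  rw [← hξ] at hmin
  have hY0 : Y.f ≠ 0 := Y.sqfree.ne_zero
  have hFd : (f.map (algebraMap K M)).natDegree ≤ 2 * g + 2 := by
    rw [natDegree_map]
    exact hmod.deg_le
  have hf0 : f ≠ 0 := by
    rintro rfl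
    rw [Polynomial.map_zero, mob_zero, mul_zero] at hY
    exact hY0 hY
  have hfξ : (f.map (algebraMap K M)).eval ξ ≠ 0 := by
    intro h0
    have h1 : Polynomial.aeval ξ f = 0 := by
      rw [← Polynomial.eval_map_algebraMap]
      exact h0
    have h2 := Polynomial.natDegree_le_of_dvd (minpoly.dvd K ξ h1) hf0
    have h3 := hmod.deg_le
    omega
  have hev : Y.f.eval x = e * ((γ * x + δ) ^ (2 * g + 2) * (f.map (algebraMap K M)).eval ξ) := by
    rw [hY, eval_mul, eval_C, mob_eval hFd hx, hξ]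
  have hy : y ≠ 0 := by
    rintro rfl
    rw [hev, zero_pow two_ne_zero] at hxy
    exact mul_ne_zero he (mul_ne_zero (pow_ne_zero _ hx) hfξ) hxy.symm
  -- the solution over `M`
  obtain ⟨N, hN⟩ := (tor_iff Y x y).1 htor
  obtain ⟨U, W, c₀, hsol⟩ := pel M Y.f x y N two_ne_zero Y.odd hxy hy hN
  have hsol1 : HSol g Y.f x N U W c₀ := (hsi g M Y.f x N U W c₀ hmod.deg_Y).1 hsol
  -- the field `E`
  have hq0 : (X ^ 2 - C e : M[X]) ≠ 0 := (monic_X_pow_sub_C e two_ne_zero).ne_zero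
  have hh0 : Y.f * (X ^ 2 - C e) ≠ 0 := mul_ne_zero hY0 hq0
  have hhd : (Y.f * (X ^ 2 - C e)).natDegree ≤ 2 * g + 3 := by
    rw [natDegree_mul hY0 hq0, hmod.deg_Y, natDegree_X_pow_sub_C]
  obtain ⟨E, _, _, _, _, _, σ, hE, hspl, hinj, i₀, hi₀⟩ := hD K M hM ξ _ hh0 hhd hmin
  have hsp1 : ∀ i, (Y.f.map (σ i).toRingHom).Splits := by
    intro i
    refine (hspl i).of_dvd ?_ ?_
    · exact (Polynomial.map_ne_zero_iff (σ i).toRingHom.injective).2 hh0
    · rw [Polynomial.map_mul]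
      exact dvd_mul_right _ _
  have hsq : ∀ i, ∃ r : E, r ^ 2 = σ i e := by
    intro i
    have h1 : ((X ^ 2 - C e : M[X]).map (σ i).toRingHom).Splits := by
      refine (hspl i).of_dvd ?_ ?_
      · exact (Polynomial.map_ne_zero_iff (σ i).toRingHom.injective).2 hh0
      · rw [Polynomial.map_mul]
        exact dvd_mul_left _ _
    have h2 : ((X ^ 2 - C e : M[X]).map (σ i).toRingHom).degree ≠ 0 := by
      rw [degree_map, degree_X_pow_sub_C two_pos]
      decide
    obtain ⟨r, hr⟩ := h1.exists_eval_eq_zero h2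
    refine ⟨r, ?_⟩
    simp only [Polynomial.map_sub, Polynomial.map_pow, Polynomial.map_X, Polynomial.map_C,
      eval_sub, eval_pow, eval_X, eval_C] at hr
    exact sub_eq_zero.1 hr
  have hfE : ∀ i, (f.map (algebraMap K M)).map (σ i).toRingHom = f.map (algebraMap K E) := by
    intro i
    rw [Polynomial.map_map]
    congr 1
    ext a
    exact (σ i).commutes a
  have hιE : (f.map (algebraMap K M)).map (algebraMap M E) = f.map (algebraMap K E) := by
    rw [Polynomial.map_map, ← IsScalarTower.algebraMap_eq]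
  have hfEd : (f.map (algebraMap K E)).natDegree ≤ 2 * g + 2 := by
    rw [natDegree_map]
    exact hmod.deg_le
  have hfξE : ∀ i, (f.map (algebraMap K E)).eval (σ i ξ) ≠ 0 := by
    intro i
    rw [← hfE i]
    have h1 := Polynomial.eval_map_apply (p := f.map (algebraMap K M)) (σ i).toRingHom ξ
    have h2 : (σ i).toRingHom ξ = σ i ξ := rfl
    rw [h2] at h1
    rw [h1]
    exact (_root_.map_ne_zero _).2 hfξ
  -- the solutions for `f`
  have hsol2 : ∀ i, ∃ (U' W' : E[X]) (c' : E),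
      HSol g (f.map (algebraMap K E)) (σ i ξ) N U' W' c' := by
    intro i
    obtain ⟨r, hr⟩ := hsq i
    have h1 := hsol_map (σ i).toRingHom hsol1
    have h2 : Y.f.map (σ i).toRingHom = C (σ i e) * mob (σ i α) (σ i β) (σ i γ) (σ i δ)
        (2 * g + 2) (f.map (algebraMap K E)) := by
      conv_lhs => rw [hY]
      rw [Polynomial.map_mul, Polynomial.map_C, mob_map, hfE i]
      rfl
    have h3 := pull mobS moi (x := σ i x) (r := r) hfEd h2
      (by rw [natDegree_map, hmod.deg_Y]; omega)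
      (by
        rw [← map_mul, ← map_mul, ← map_sub]
        exact (_root_.map_ne_zero _).2 hdet)
      (by
        rw [← map_mul, ← map_add]
        exact (_root_.map_ne_zero _).2 hx)
      ((_root_.map_ne_zero _).2 he) hr h1
    have h4 : (σ i α * σ i x + σ i β) / (σ i γ * σ i x + σ i δ) = σ i ξ := by
      rw [hξ, map_div₀, map_add, map_add, map_mul, map_mul]
    rw [h4] at h3
    exact h3
  -- the model over `E`
  obtain ⟨ι, hι⟩ : ∃ ι : M →+* E, ι = algebraMap M E := ⟨_, rfl⟩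
  rw [← hι] at hιE hi₀
  have hYι : Y.f.map ι = C (ι e) * mob (ι α) (ι β) (ι γ) (ι δ) (2 * g + 2)
      (f.map (algebraMap K E)) := by
    conv_lhs => rw [hY]
    rw [Polynomial.map_mul, Polynomial.map_C, mob_map, hιE]
  have hιdet : ι α * ι δ - ι β * ι γ ≠ 0 := by
    rw [← map_mul, ← map_mul, ← map_sub]
    exact (_root_.map_ne_zero _).2 hdet
  have hιe : ι e ≠ 0 := (_root_.map_ne_zero _).2 he
  have hne : ∀ i, ι α - ι γ * σ i ξ ≠ 0 := by
    intro i h0
    have h1 : ι α = ι γ * σ i ξ := sub_eq_zero.1 h0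
    have hγ : ι γ ≠ 0 := by
      intro h2
      rw [h2, zero_mul] at h1
      rw [h1, h2, zero_mul, mul_zero, sub_zero] at hιdet
      exact hιdet rfl
    have h2 : (Y.f.map ι).coeff (2 * g + 2) = 0 := by
      apply coeff_eq_zero_of_natDegree_lt
      rw [natDegree_map, hmod.deg_Y]
      omega
    rw [hYι, coeff_C_mul, mob_coeff] at h2
    have h3 := (mul_eq_zero.1 h2).resolve_left hιe
    have h4 : ∑ j ∈ Finset.range (2 * g + 2 + 1), (f.map (algebraMap K E)).coeff j * ι α ^ j *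
        ι γ ^ (2 * g + 2 - j) = ι γ ^ (2 * g + 2) * (f.map (algebraMap K E)).eval (σ i ξ) := by
      rw [eval_eq_sum_range' (Nat.lt_succ_of_le hfEd), Finset.mul_sum]
      refine Finset.sum_congr rfl fun j hj => ?_
      have hj1 : j ≤ 2 * g + 2 := Nat.lt_succ_iff.1 (Finset.mem_range.1 hj)
      have h5 : ι γ ^ (2 * g + 2) = ι γ ^ j * ι γ ^ (2 * g + 2 - j) := by
        rw [← pow_add, Nat.add_sub_cancel' hj1]
      rw [h1, h5, mul_pow]
      ring
    rw [h4] at h3
    exact mul_ne_zero (pow_ne_zero _ hγ) (hfξE i) h3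
  obtain ⟨r₀, hr₀⟩ := hsq i₀
  rw [hi₀] at hr₀
  obtain ⟨xx, hxx⟩ : ∃ xx : Fin (2 * g + 9) → E, xx = fun i =>
      (ι δ * σ i ξ - ι β) / (ι α - ι γ * σ i ξ) := ⟨_, rfl⟩
  have hpush : ∀ i, ι γ * xx i + ι δ ≠ 0 ∧ (ι α * xx i + ι β) / (ι γ * xx i + ι δ) = σ i ξ ∧
      ∃ (U' W' : E[X]) (c' : E), HSol g (Y.f.map ι) (xx i) N U' W' c' := by
    intro i
    obtain ⟨U', W', c', h1⟩ := hsol2 i
    have h2 := push mobS (r := r₀) hfEd hιdet (hne i) hιe hr₀ h1
    rw [← hYι] at h2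
    rw [hxx]
    exact h2
  have hxinj : Function.Injective xx := by
    intro i j hij
    apply hinj
    show σ i ξ = σ j ξ
    rw [← (hpush i).2.1, ← (hpush j).2.1, hij]
  have hxev : ∀ i, (Y.f.map ι).eval (xx i) ≠ 0 := by
    intro i
    rw [hYι, eval_mul, eval_C, mob_eval hfEd (hpush i).1, (hpush i).2.1]
    exact mul_ne_zero hιe (mul_ne_zero (pow_ne_zero _ (hpush i).1) (hfξE i))
  -- the roots
  have hιeq : (σ i₀).toRingHom = ι := RingHom.ext fun a => hi₀ a
  have hsplit : (Y.f.map ι).Splits := by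
    rw [← hιeq]
    exact hsp1 i₀
  have hsqf : Squarefree (Y.f.map ι) :=
    (PerfectField.separable_iff_squarefree.2 Y.sqfree).map.squarefree
  have hdeg : (Y.f.map ι).natDegree = 2 * g + 1 := by rw [natDegree_map, hmod.deg_Y]
  obtain ⟨e', θ, he', hprod, hθ, hθ0⟩ := roots_ex hsplit hsqf hdeg
  have hcfg : Cfg g (Sum.elim θ xx) e' := by
    refine ⟨?_, he', ?_⟩
    · rw [Sum.elim_injective]
      refine ⟨hθ, hxinj, ?_⟩
      intro j i h
      exact hxev i (by rw [← h]; exact hθ0 j)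
    · rintro (j | i) hp
      · exact absurd (inl_mem g j) hp
      · obtain ⟨-, -, U', W', c', h1⟩ := hpush i
        refine ⟨N, U', W', c', ?_⟩
        rw [FF_elim, ← hprod]
        exact (hsi g E _ _ _ _ _ _ hdeg).2 h1
  refine ⟨E, inferInstance, inferInstance, inferInstance, e', θ, xx, hE, ?_, hcfg⟩
  rw [← hι]
  exact hprod

theorem cfg_of_degree (hsi : HsiStmt) (mob : MobStmt) (moi : MoiStmt) (cne : CneStmt)
    (pel : MNT.PelStmt) (g : ℕ) (K M : Type) [Field K] [NumberField K] [Field M] [NumberField M]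
    [Algebra K M] (f : K[X]) (Y : UBT.OddCurve M) (α β γ δ : M) :
    IsOddModel g f Y α β γ δ → ∀ x y : M, y ^ 2 = Y.f.eval x → γ * x + δ ≠ 0 →
    2 * g + 9 ≤ (minpoly K ((α * x + β) / (γ * x + δ))).natDegree → IsOfFinOrder (cls Y x y) →
    ∃ (E : Type) (_ : Field E) (_ : NumberField E) (_ : Algebra M E) (e : E)
      (θ : Fin (2 * g + 1) → E) (x' : Fin (2 * g + 9) → E),
      Y.f.map (algebraMap M E) = C e * ∏ j, (X - C (θ j)) ∧ Cfg g (Sum.elim θ x') e := by
  intro hmod x y hxy hx hmin htor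
  obtain ⟨D, hD⟩ := cfg_of_degree_bd hsi mob moi cne pel g (Module.finrank ℚ M)
  obtain ⟨E, h1, h2, h3, e, θ, x', -, h4, h5⟩ :=
    hD K M le_rfl f Y α β γ δ hmod x y hxy hx hmin htor
  exact ⟨E, h1, h2, h3, e, θ, x', h4, h5⟩

end Pool.Agent.MNU.H31
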